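import Pool.Agent.H50.LP.Main

/-! The analytic part. -/

set_option autoImplicit false

namespace H50LP

open Finset

theorem log3_le : Real.log 3 ≤ 1.09863 := by
  have h1 := Real.log_two_lt_d9
  have h2 := Real.log_le_sub_one_of_pos (x := (3 : ℝ) ^ 12 / 2 ^ 19) (by positivity)
  rw [Real.log_div (by positivity) (by positivity), Real.log_pow, Real.log_pow] at h2
  norm_num at h2
  linarith

theorem log3_ge : 1.0986 ≤ Real.log 3 := by
  have h1 := Real.log_two_gt_d9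
  have h2 := Real.one_sub_inv_le_log_of_pos (x := (3 : ℝ) ^ 12 / 2 ^ 19) (by positivity)
  rw [Real.log_div (by positivity) (by positivity), Real.log_pow, Real.log_pow] at h2
  norm_num at h2
  linarith

theorem log4_eq : Real.log 4 = 2 * Real.log 2 := by
  rw [show (4 : ℝ) = 2 ^ 2 by norm_num, Real.log_pow]
  norm_num

theorem E_bound (n n0 : ℕ) (c : ℝ) (h0 : 8 ≤ n0) (hn : n0 ≤ n) (hc : 0 ≤ c)
    (h : Real.log ((n0 : ℝ) + 1) ≤ c * √((n0 : ℝ) + 1)) :
    √((n : ℝ) + 1) * Real.log ((n : ℝ) + 1) ≤ (c * (1 + 1 / (n0 : ℝ))) * n := by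
  have h0' : (8 : ℝ) ≤ n0 := by exact_mod_cast h0
  have hn' : (n0 : ℝ) ≤ n := by exact_mod_cast hn
  have he : Real.exp 2 ≤ 9 := by
    have h1 := Real.exp_one_lt_d9
    have h2 : Real.exp 2 = Real.exp 1 * Real.exp 1 := by
      rw [← Real.exp_add]; norm_num
    rw [h2]
    have h3 := Real.exp_pos 1
    nlinarith
  have h1 := Real.log_div_sqrt_antitoneOn (a := (n0 : ℝ) + 1) (b := (n : ℝ) + 1)
    (by show Real.exp 2 ≤ _; linarith) (by show Real.exp 2 ≤ _; linarith) (by linarith)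
  have hs0 : 0 < √((n0 : ℝ) + 1) := Real.sqrt_pos.mpr (by linarith)
  have hs : 0 < √((n : ℝ) + 1) := Real.sqrt_pos.mpr (by linarith)
  have h2 : Real.log ((n : ℝ) + 1) / √((n : ℝ) + 1) ≤ c := by
    refine h1.trans ?_
    show Real.log ((n0 : ℝ) + 1) / √((n0 : ℝ) + 1) ≤ c
    rw [div_le_iff₀ hs0]
    exact h
  rw [div_le_iff₀ hs] at h2
  calc √((n : ℝ) + 1) * Real.log ((n : ℝ) + 1) ≤ √((n : ℝ) + 1) * (c * √((n : ℝ) + 1)) := by gcongr
    _ = c * ((n : ℝ) + 1) := by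
        rw [show √((n : ℝ) + 1) * (c * √((n : ℝ) + 1)) = c * (√((n : ℝ) + 1) * √((n : ℝ) + 1)) by ring,
          Real.mul_self_sqrt (by linarith)]
    _ ≤ _ := by
        rw [mul_assoc]
        apply mul_le_mul_of_nonneg_left _ hc
        have : 1 ≤ 1 / (n0 : ℝ) * n := by
          rw [one_div, inv_mul_eq_div, le_div_iff₀ (by linarith)]
          linarith
        linarith

/-- reduction of the theorem to two estimates -/
theorem reduce (n : ℕ) (hn : 1 ≤ n) (E T : ℝ)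
    (hE : √((n : ℝ) + 1) * Real.log ((n : ℝ) + 1) ≤ E * n)
    (hT : ((((SS (n ^ 3 + (3 * n ^ 2 + 3 * n)) (3 * n ^ 2 + 3 * n)).filter
      (fun p => p ^ 5 ≤ n ^ 11)).card : ℕ) : ℝ) * (11 / 5 * Real.log n) ≤ T * (3 * (n : ℝ) ^ 2 + 3 * n))
    (hfin : Real.log n + 1 / n ≤ 20 * (Real.log n - Real.log 3 - Real.log 4 - 1 / n - E - T)) :
    n ^ 2 ≤ 20 * ((SS (n ^ 3 + (3 * n ^ 2 + 3 * n)) (3 * n ^ 2 + 3 * n)).filter
      (fun p => ¬ p ^ 5 ≤ n ^ 11)).card := by
  set H := 3 * n ^ 2 + 3 * n with hH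
  set N := n ^ 3 + H with hN
  set x : ℝ := (n : ℝ) with hx
  set L := Real.log x with hL
  have hx1 : (1 : ℝ) ≤ x := by rw [hx]; exact_mod_cast hn
  have hx0 : 0 < x := by linarith
  have hL0 : 0 ≤ L := Real.log_nonneg hx1
  have hHr : (H : ℝ) = 3 * x ^ 2 + 3 * x := by rw [hH, hx]; push_cast; ring
  have hH0 : 0 < (H : ℝ) := by rw [hHr]; positivity
  have hNr : (N : ℝ) + 1 = (x + 1) ^ 3 := by
    rw [hN]; push_cast; rw [hHr]; ring
  have hN1 : 1 ≤ N := by
    have : 1 ≤ n ^ 3 := Nat.one_le_pow _ _ hn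
    omega
  have hN0 : (1 : ℝ) ≤ N := by exact_mod_cast hN1
  have h1 := lower (n ^ 3) H (Nat.one_le_pow _ _ hn) (by omega)
  have h2 := upper N H (by omega) hN1
  have hlm : Real.log ((n ^ 3 : ℕ) : ℝ) = 3 * L := by
    push_cast
    rw [Real.log_pow]
    push_cast
    ring
  have hlogx1 : Real.log (x + 1) ≤ L + 1 / x := by
    have h3 := Real.log_le_sub_one_of_pos (x := (x + 1) / x) (by positivity)
    rw [Real.log_div (by positivity) (by positivity)] at h3
    have h4 : (x + 1) / x - 1 = 1 / x := by field_simp; ring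
    linarith
  have hlogx1' : L ≤ Real.log (x + 1) := Real.log_le_log hx0 (by linarith)
  have hlogH : Real.log H ≤ Real.log 3 + 2 * L + 1 / x := by
    have h3 : (H : ℝ) = 3 * x * (x + 1) := by rw [hHr]; ring
    rw [h3, Real.log_mul (by positivity) (by positivity), Real.log_mul (by norm_num) (by positivity)]
    linarith
  have hlogN : Real.log N ≤ 3 * Real.log (x + 1) := by
    have h3 : Real.log N ≤ Real.log ((x + 1) ^ 3) := Real.log_le_log (by linarith) (by linarith)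
    rw [Real.log_pow] at h3
    push_cast at h3
    exact h3
  have hlogN0 : 0 ≤ Real.log N := Real.log_nonneg hN0
  have hsq : (Nat.sqrt N : ℝ) ≤ (x + 1) * √(x + 1) := by
    refine Real.nat_sqrt_le_real_sqrt.trans ?_
    have h3 : (N : ℝ) ≤ (x + 1) ^ 2 * (x + 1) := by nlinarith
    refine (Real.sqrt_le_sqrt h3).trans ?_
    rw [Real.sqrt_mul (by positivity), Real.sqrt_sq (by linarith)]
  have herr : (Nat.sqrt N : ℝ) * Real.log N ≤ E * H := by
    calc (Nat.sqrt N : ℝ) * Real.log N ≤ ((x + 1) * √(x + 1)) * (3 * Real.log (x + 1)) := by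
          gcongr
      _ = 3 * (x + 1) * (√(x + 1) * Real.log (x + 1)) := by ring
      _ ≤ 3 * (x + 1) * (E * x) := by gcongr
      _ = E * H := by rw [hHr]; ring
  have hW : (H : ℝ) * (L - Real.log 3 - Real.log 4 - 1 / x - E) ≤ ∑ p ∈ SS N H, Real.log p := by
    rw [hlm] at h1
    have h3 : (H : ℝ) * Real.log H ≤ H * (Real.log 3 + 2 * L + 1 / x) := by gcongr
    nlinarith
  have hsplit := Finset.sum_filter_add_sum_filter_not (SS N H) (fun p => p ^ 5 ≤ n ^ 11)
    (fun p => Real.log p)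
  set S1 := (SS N H).filter (fun p => p ^ 5 ≤ n ^ 11) with hS1
  set S2 := (SS N H).filter (fun p => ¬ p ^ 5 ≤ n ^ 11) with hS2
  have hprime : ∀ p ∈ SS N H, p.Prime ∧ p ≤ N := by
    intro p hp
    unfold SS at hp
    rw [mem_filter, mem_range] at hp
    exact ⟨hp.2.1, by omega⟩
  have hb1 : ∑ p ∈ S1, Real.log p ≤ S1.card * (11 / 5 * L) := by
    rw [← nsmul_eq_mul]
    apply Finset.sum_le_card_nsmul
    intro p hp
    rw [hS1, mem_filter] at hp
    have hp0 : 0 < p := (hprime p hp.1).1.pos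
    have h3 : ((p : ℝ)) ^ 5 ≤ x ^ 11 := by rw [hx]; exact_mod_cast hp.2
    have hp0' : (0 : ℝ) < p := by exact_mod_cast hp0
    have h4 := Real.log_le_log (by positivity) h3
    rw [Real.log_pow, Real.log_pow] at h4
    push_cast at h4
    linarith
  have hb2 : ∑ p ∈ S2, Real.log p ≤ S2.card * Real.log N := by
    rw [← nsmul_eq_mul]
    apply Finset.sum_le_card_nsmul
    intro p hp
    rw [hS2, mem_filter] at hp
    have hp0 : 0 < p := (hprime p hp.1).1.pos
    apply Real.log_le_log (by exact_mod_cast hp0)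
    exact_mod_cast (hprime p hp.1).2
  have h5 : (H : ℝ) * (L - Real.log 3 - Real.log 4 - 1 / x - E - T) ≤ S2.card * Real.log N := by
    rw [← hHr] at hT
    nlinarith
  have h6 : (H : ℝ) * (L + 1 / x) ≤ 20 * (S2.card * Real.log N) := by
    have h7 : (H : ℝ) * (L + 1 / x) ≤
        H * (20 * (L - Real.log 3 - Real.log 4 - 1 / x - E - T)) := by gcongr
    linarith
  have hpos : 0 < L + 1 / x := by positivity
  have h7 : (H : ℝ) * (L + 1 / x) ≤ 20 * (S2.card * (3 * (L + 1 / x))) := by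
    refine h6.trans ?_
    have : Real.log N ≤ 3 * (L + 1 / x) := by linarith
    gcongr
  have h8 : (H : ℝ) ≤ 60 * S2.card := by
    have : (H : ℝ) * (L + 1 / x) ≤ (60 * S2.card) * (L + 1 / x) := by linarith
    exact le_of_mul_le_mul_right this hpos
  rw [hHr] at h8
  generalize S2.card = c at h8 ⊢
  have h9 : x ^ 2 ≤ 20 * (c : ℝ) := by linarith
  rw [hx] at h9
  exact_mod_cast h9

theorem KK_facts (n : ℕ) (hn : 233 ≤ n) (U : ℝ) (hU1 : 1 ≤ U) (hU : U ^ 5 ≤ (n : ℝ) ^ 4) :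
    ∑ k ∈ KK n, 1 / (k : ℝ) ≤ 1 / 5 * Real.log n - Real.log 3 + 2 / n + 1 / U ∨ KK n = ∅ := by
  have hn' : (233 : ℝ) ≤ n := by exact_mod_cast hn
  have hn0 : (0 : ℝ) < n := by linarith
  set u : ℝ := Real.exp (4 / 5 * Real.log n) with hu
  have hu5 : u ^ 5 = (n : ℝ) ^ 4 := by
    rw [hu, ← Real.exp_nat_mul, show ((5 : ℕ) : ℝ) * (4 / 5 * Real.log n) = (4 : ℕ) * Real.log n by
      push_cast; ring, Real.exp_nat_mul, Real.exp_log hn0]
  have hu0 : 0 < u := Real.exp_pos _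
  have hUu : U ≤ u := by
    by_contra hcon
    have : u ^ 5 < U ^ 5 := pow_lt_pow_left₀ (not_le.mp hcon) hu0.le (by norm_num)
    linarith
  have h1 := sum_inv_le (KK n) u (((n : ℝ) + 2) / 3) (by linarith) (by
    intro k hk
    unfold KK at hk
    rw [mem_filter, Finset.mem_Icc] at hk
    constructor
    · by_contra hcon
      have h2 : (k : ℝ) ^ 5 ≤ u ^ 5 := by
        apply pow_le_pow_left₀ (Nat.cast_nonneg k) (not_lt.mp hcon)
      have h3 : (n : ℝ) ^ 4 < (k : ℝ) ^ 5 := by exact_mod_cast hk.2.1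
      linarith
    · have h3 : 3 * (k : ℝ) ≤ n + 2 := by exact_mod_cast hk.2.2
      linarith)
  rcases h1 with h1 | h1
  · left
    have h2 : Real.log u = 4 / 5 * Real.log n := Real.log_exp _
    have h3 : Real.log (((n : ℝ) + 2) / 3) ≤ Real.log n + 2 / n - Real.log 3 := by
      rw [Real.log_div (by positivity) (by norm_num)]
      have h4 := Real.log_le_sub_one_of_pos (x := ((n : ℝ) + 2) / n) (by positivity)
      rw [Real.log_div (by positivity) (by positivity)] at h4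
      have h5 : ((n : ℝ) + 2) / n - 1 = 2 / n := by field_simp; ring
      linarith
    have h4 : 1 / u ≤ 1 / U := one_div_le_one_div_of_le (by linarith) hUu
    linarith
  · right; exact h1

/-- the small primes -/
theorem T_bound (n : ℕ) (hn : 233 ≤ n) (D : ℕ) (hD : 2 ≤ D) (hD2 : ((D : ℝ)) ^ 2 ≤ 9 / 100 * n)
    (s e : ℝ) (hs : ∑ k ∈ KK n, 1 / (k : ℝ) ≤ s)
    (he : ((n : ℝ) + 2) / 3 ≤ e * (3 * (n : ℝ) ^ 2 + 3 * n)) (he' : 0 ≤ e) :
    ((((SS (n ^ 3 + (3 * n ^ 2 + 3 * n)) (3 * n ^ 2 + 3 * n)).filter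
      (fun p => p ^ 5 ≤ n ^ 11)).card : ℕ) : ℝ) * (11 / 5 * Real.log n) ≤
      (11 / 5 * Real.log n * ((s + e) / Real.log D + e * (9 / 100 * n))) * (3 * (n : ℝ) ^ 2 + 3 * n) := by
  have hn' : (233 : ℝ) ≤ n := by exact_mod_cast hn
  have hL0 : 0 ≤ Real.log n := Real.log_nonneg (by linarith)
  have hDn : D ≤ n := by
    have h1 : (D : ℝ) ≤ n := by
      have h2 : (2 : ℝ) ≤ D := by exact_mod_cast hD
      nlinarith
    exact_mod_cast h1
  have h1 := card_small n D (by omega) hD hDn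
  have hlogD : 0 < Real.log D := Real.log_pos (by exact_mod_cast (by omega : 1 < D))
  set Hr : ℝ := 3 * (n : ℝ) ^ 2 + 3 * n with hHr
  have hH : ((3 * n ^ 2 + 3 * n : ℕ) : ℝ) = Hr := by rw [hHr]; push_cast; ring
  have hHr0 : 0 ≤ Hr := by rw [hHr]; positivity
  rw [hH] at h1
  have hc : ((KK n).card : ℝ) ≤ e * Hr := by
    refine le_trans ?_ he
    have h2 : KK n ⊆ Finset.Icc 1 ((n + 2) / 3) := by
      intro k hk
      unfold KK at hk
      rw [mem_filter, Finset.mem_Icc] at hk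
      rw [Finset.mem_Icc]
      omega
    have h3 := Finset.card_le_card h2
    rw [Nat.card_Icc, Nat.add_sub_cancel] at h3
    have h4 : (((n + 2) / 3 : ℕ) : ℝ) ≤ ((n + 2 : ℕ) : ℝ) / (3 : ℕ) := Nat.cast_div_le
    push_cast at h4
    have h5 : ((KK n).card : ℝ) ≤ (((n + 2) / 3 : ℕ) : ℝ) := by exact_mod_cast h3
    linarith
  have h2 : ∑ k ∈ KK n, ((Hr * (1 / (k : ℝ)) + 1) / Real.log D + (D : ℝ) ^ 2)
      = (Hr * (∑ k ∈ KK n, 1 / (k : ℝ)) + (KK n).card) / Real.log D + (KK n).card * (D : ℝ) ^ 2 := by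
    rw [Finset.sum_add_distrib, Finset.sum_const, nsmul_eq_mul, ← Finset.sum_div,
      Finset.sum_add_distrib, Finset.sum_const, nsmul_eq_mul, mul_one, ← Finset.mul_sum]
  rw [h2] at h1
  have h3 : (Hr * (∑ k ∈ KK n, 1 / (k : ℝ)) + (KK n).card) / Real.log D ≤
      (Hr * s + e * Hr) / Real.log D := by gcongr
  have h4 : ((KK n).card : ℝ) * (D : ℝ) ^ 2 ≤ (e * Hr) * (9 / 100 * n) := by gcongr
  have h5 : (Hr * s + e * Hr) / Real.log D + (e * Hr) * (9 / 100 * n)
      = ((s + e) / Real.log D + e * (9 / 100 * n)) * Hr := by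
    field_simp
  have h6 : ((((SS (n ^ 3 + (3 * n ^ 2 + 3 * n)) (3 * n ^ 2 + 3 * n)).filter
      (fun p => p ^ 5 ≤ n ^ 11)).card : ℕ) : ℝ) ≤
      ((s + e) / Real.log D + e * (9 / 100 * n)) * Hr := by linarith
  calc _ ≤ (((s + e) / Real.log D + e * (9 / 100 * n)) * Hr) * (11 / 5 * Real.log n) := by gcongr
    _ = _ := by ring

end H50LP
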