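import Pool.Agent.H17.WBT

/-! Explicit Brun-Titchmarsh inequality for an interval (from the Selberg sieve of H17/Selberg), and
a bound for harmonic sums. -/

set_option autoImplicit false

namespace H50LP

open Finset Pool.Agent.H17

open BoundingSieve in
/-- **Brun-Titchmarsh**, explicit. -/
theorem bt (y z D : ℕ) (hD : 2 ≤ D) :
    ((((Finset.Ioc y (y + z)).filter (fun p => p.Prime ∧ D < p)).card : ℕ) : ℝ) ≤
      z / Real.log D + (D : ℝ) ^ 2 := by
  set I := Finset.Ioc y (y + z) with hI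
  have h1 := Selb.selberg_bound (s := svb 1 D I (fun _ => 1) (fun _ => zero_le_one) z) (z := D) (by omega)
  rw [svb_GG] at h1
  have h3 := GG_lower 1 le_rfl (D := D) (by omega)
  have hCb1 : Cb 1 = 1 := by
    unfold Cb
    simp
  rw [hCb1, one_mul] at h3
  have hlog : 0 < Real.log D := Real.log_pos (by exact_mod_cast (by omega : 1 < D))
  set G := Op (PPb 1 D) (fun p => 1 / ((p : ℝ) - 1)) one1 D with hG
  have hG0 : 0 < G := by linarith
  have h4 : (z : ℝ) * G⁻¹ ≤ z / Real.log D := by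
    rw [← div_eq_mul_inv]
    exact div_le_div_of_nonneg_left (Nat.cast_nonneg z) hlog h3
  have h5 : ((((Finset.Ioc y (y + z)).filter (fun p => p.Prime ∧ D < p)).card : ℕ) : ℝ) ≤
      (svb 1 D I (fun _ => 1) (fun _ => zero_le_one) z).siftedSum := by
    unfold BoundingSieve.siftedSum
    show _ ≤ ∑ n ∈ I, (if Nat.Coprime (WWb 1 D) n then (1 : ℝ) else 0)
    rw [← Finset.sum_filter, Finset.sum_const, nsmul_eq_mul, mul_one]
    have : (I.filter (fun p => p.Prime ∧ D < p)) ⊆ I.filter (fun n => Nat.Coprime (WWb 1 D) n) := by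
      intro n hn
      rw [Finset.mem_filter] at hn ⊢
      refine ⟨hn.1, ?_⟩
      unfold WWb
      apply Nat.Coprime.prod_left
      intro p hp
      rw [mem_PPb] at hp
      rw [Nat.coprime_primes hp.2.1 hn.2.1]
      have := hn.2.2
      omega
    exact_mod_cast Finset.card_le_card this
  have h6 : (svb 1 D I (fun _ => 1) (fun _ => zero_le_one) (z : ℝ)).totalMass = z := rfl
  rw [h6] at h1
  have h7 : ∑ d1 ∈ (Nat.divisors (WWb 1 D)).filter (fun l => l ≤ D),
      ∑ d2 ∈ (Nat.divisors (WWb 1 D)).filter (fun l => l ≤ D),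
        |(svb 1 D I (fun _ => 1) (fun _ => zero_le_one) (z : ℝ)).rem (d1.lcm d2)| ≤ (D : ℝ) ^ 2 := by
    set V := (Nat.divisors (WWb 1 D)).filter (fun l => l ≤ D) with hV
    have hVc : (V.card : ℝ) ≤ D := by
      have : V ⊆ Finset.Icc 1 D := by
        intro l hl
        rw [hV, Finset.mem_filter, Nat.mem_divisors] at hl
        rw [Finset.mem_Icc]
        exact ⟨Nat.pos_of_ne_zero (ne_zero_of_dvd_ne_zero hl.1.2 hl.1.1), hl.2⟩
      have h := Finset.card_le_card this
      rw [Nat.card_Icc, Nat.add_sub_cancel] at h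
      exact_mod_cast h
    have hb : ∀ d1 ∈ V, ∀ d2 ∈ V,
        |(svb 1 D I (fun _ => 1) (fun _ => zero_le_one) (z : ℝ)).rem (d1.lcm d2)| ≤ 1 := by
      intro d1 hd1 d2 hd2
      rw [hV, Finset.mem_filter, Nat.mem_divisors] at hd1 hd2
      have h8 : d1.lcm d2 ∣ WWb 1 D := Nat.lcm_dvd hd1.1.1 hd2.1.1
      have hesq : Squarefree (d1.lcm d2) := Squarefree.squarefree_of_dvd h8 (squarefree_WWb 1 D)
      have he1 : 1 ≤ d1.lcm d2 := Nat.pos_of_ne_zero hesq.ne_zero
      generalize d1.lcm d2 = e at hesq he1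
      have hrem : (svb 1 D I (fun _ => 1) (fun _ => zero_le_one) (z : ℝ)).rem e =
          ((((Finset.Ioc y (y + z)).filter (fun n => e ∣ n)).card : ℕ) : ℝ) - (z : ℝ) / e := by
        unfold BoundingSieve.rem BoundingSieve.multSum
        show (∑ n ∈ I, (if e ∣ n then (1 : ℝ) else 0)) - nuOne e * z = _
        rw [← Finset.sum_filter, Finset.sum_const, nsmul_eq_mul, mul_one, nuOne_squarefree hesq]
        ring
      rw [hrem]
      exact count_dvd_Ioc y z e he1
    calc _ ≤ ∑ d1 ∈ V, ∑ d2 ∈ V, (1 : ℝ) :=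
          Finset.sum_le_sum (fun d1 hd1 => Finset.sum_le_sum (fun d2 hd2 => hb d1 hd1 d2 hd2))
      _ = (V.card : ℝ) * V.card := by
          rw [Finset.sum_const, Finset.sum_const, nsmul_eq_mul, nsmul_eq_mul, mul_one]
      _ ≤ (D : ℝ) * D := by gcongr
      _ = (D : ℝ) ^ 2 := by ring
  calc _ ≤ _ := h5
    _ ≤ (z : ℝ) * G⁻¹ + _ := h1
    _ ≤ _ := add_le_add h4 h7

/-- `∑ 1/k` over integers between two reals. -/
theorem sum_inv_le (K : Finset ℕ) (u v : ℝ) (hu : 1 ≤ u) (hK : ∀ k ∈ K, u < k ∧ (k : ℝ) ≤ v) :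
    ∑ k ∈ K, 1 / (k : ℝ) ≤ 1 / u + (Real.log v - Real.log u) ∨ K = ∅ := by
  by_cases hne : K = ∅
  · right; exact hne
  left
  have hn : K.Nonempty := Finset.nonempty_iff_ne_empty.mpr hne
  set a := K.min' hn with ha
  set b := K.max' hn with hb
  have haK : a ∈ K := K.min'_mem hn
  have hbK : b ∈ K := K.max'_mem hn
  have hab : a ≤ b := K.min'_le b hbK
  have hau : u < a := (hK a haK).1
  have hbv : (b : ℝ) ≤ v := (hK b hbK).2
  have ha1 : 1 < a := by
    have : (1 : ℝ) < a := by linarith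
    exact_mod_cast this
  have hsub : K ⊆ Finset.Icc a b := fun k hk =>
    Finset.mem_Icc.mpr ⟨K.min'_le k hk, K.le_max' k hk⟩
  have h1 : ∑ k ∈ K, 1 / (k : ℝ) ≤ ∑ k ∈ Finset.Icc a b, 1 / (k : ℝ) :=
    Finset.sum_le_sum_of_subset_of_nonneg hsub (fun _ _ _ => by positivity)
  have h2 : ∀ c : ℕ, a ≤ c → ∑ k ∈ Finset.Icc a c, 1 / (k : ℝ) ≤ 1 / a + (Real.log c - Real.log a) := by
    intro c hc
    induction c, hc using Nat.le_induction with
    | base => simp
    | succ c hc ih =>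
      rw [Finset.sum_Icc_succ_top (by omega)]
      have hc0 : (0 : ℝ) < c := by exact_mod_cast (by omega : 0 < c)
      have h3 : 1 / ((c + 1 : ℕ) : ℝ) ≤ Real.log ((c + 1 : ℕ) : ℝ) - Real.log c := by
        have h4 := Real.one_sub_inv_le_log_of_pos (x := ((c + 1 : ℕ) : ℝ) / c) (by positivity)
        rw [Real.log_div (by positivity) (by positivity)] at h4
        have h5 : 1 - (((c + 1 : ℕ) : ℝ) / c)⁻¹ = 1 / ((c + 1 : ℕ) : ℝ) := by
          push_cast
          field_simp
          ring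
        rw [h5] at h4
        exact h4
      linarith
  have h3 := h2 b hab
  have hu0 : 0 < u := by linarith
  have ha0 : (0 : ℝ) < a := by linarith
  have hb0 : (0 : ℝ) < b := by exact_mod_cast (by omega : 0 < b)
  have h4 : Real.log b ≤ Real.log v := Real.log_le_log hb0 hbv
  have h5 : Real.log u ≤ Real.log a := Real.log_le_log hu0 hau.le
  have h6 : 1 / (a : ℝ) ≤ 1 / u := by
    apply one_div_le_one_div_of_le hu0 hau.le
  linarith

end H50LP
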