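import Pool.Agent.H50.LP.Bt

/-! The binomial coefficient `C(N, H)` and its prime factors. -/

set_option autoImplicit false

namespace H50LP

open Finset

/-- lower bound for the binomial coefficient -/
theorem lower (m H : ℕ) (hm : 1 ≤ m) (hH : 1 ≤ H) :
    (H : ℝ) * Real.log m ≤ H * Real.log H + Real.log ((m + H).choose H : ℕ) := by
  have h1 := Nat.pow_sub_le_descFactorial (m + H) H
  rw [Nat.descFactorial_eq_factorial_mul_choose] at h1
  have h2 : m ^ H ≤ (m + H + 1 - H) ^ H := Nat.pow_le_pow_left (by omega) _
  have h3 : m ^ H ≤ H ^ H * (m + H).choose H :=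
    h2.trans (h1.trans (Nat.mul_le_mul_right _ (Nat.factorial_le_pow H)))
  have h4 : (m : ℝ) ^ H ≤ (H : ℝ) ^ H * ((m + H).choose H : ℕ) := by exact_mod_cast h3
  have hm0 : (0 : ℝ) < m := by exact_mod_cast hm
  have hH0 : (0 : ℝ) < H := by exact_mod_cast hH
  have hC : (0 : ℝ) < ((m + H).choose H : ℕ) := by
    exact_mod_cast Nat.choose_pos (by omega)
  have h5 := Real.log_le_log (by positivity) h4
  rw [Real.log_mul (by positivity) (by positivity), Real.log_pow, Real.log_pow] at h5
  exact h5

/-- the large primes dividing the binomial coefficient -/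
def SS (N H : ℕ) : Finset ℕ := (range (N + 1)).filter (fun p => p.Prime ∧ H < p ∧ p ∣ N.choose H)

/-- upper bound for the binomial coefficient -/
theorem upper (N H : ℕ) (hHN : H ≤ N) (hN : 1 ≤ N) :
    Real.log (N.choose H : ℕ) ≤ (Nat.sqrt N : ℝ) * Real.log N + H * Real.log 4 +
      ∑ p ∈ SS N H, Real.log p := by
  have h0 := Nat.prod_pow_factorization_choose N H hHN
  have hlogN : 0 ≤ Real.log N := Real.log_nonneg (by exact_mod_cast hN)
  have h1 : Real.log (N.choose H : ℕ) = ∑ p ∈ range (N + 1),
      ((N.choose H).factorization p : ℝ) * Real.log p := by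
    conv_lhs => rw [← h0]
    rw [Nat.cast_prod, Real.log_prod]
    · apply Finset.sum_congr rfl
      intro p _
      rw [Nat.cast_pow, Real.log_pow]
    · intro p _
      by_cases hp : p = 0
      · subst hp
        simp
      · positivity
  have hlog0 : ∀ p : ℕ, 0 ≤ Real.log p := fun p => Real.log_natCast_nonneg p
  have h2 : ∀ p ∈ range (N + 1), ((N.choose H).factorization p : ℝ) * Real.log p ≤
      (if p ∈ Finset.Icc 1 (Nat.sqrt N) then Real.log N else 0) +
      (if p.Prime ∧ p ≤ H then Real.log p else 0) + (if p ∈ SS N H then Real.log p else 0) := by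
    intro p hp
    rw [mem_range] at hp
    have ha : 0 ≤ (if p ∈ Finset.Icc 1 (Nat.sqrt N) then Real.log N else 0) := by
      split_ifs <;> [exact hlogN; exact le_rfl]
    have hb : 0 ≤ (if p.Prime ∧ p ≤ H then Real.log p else 0) := by
      split_ifs <;> [exact hlog0 p; exact le_rfl]
    have hc : 0 ≤ (if p ∈ SS N H then Real.log p else 0) := by
      split_ifs <;> [exact hlog0 p; exact le_rfl]
    by_cases hpp : p.Prime
    swap
    · rw [Nat.factorization_eq_zero_of_not_prime _ hpp]
      simp only [Nat.cast_zero, zero_mul]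
      linarith
    by_cases hps : p ≤ Nat.sqrt N
    · have h3 := Nat.pow_factorization_choose_le (p := p) (n := N) (k := H) (by omega)
      have h4 : ((N.choose H).factorization p : ℝ) * Real.log p ≤ Real.log N := by
        rw [← Real.log_pow]
        apply Real.log_le_log
        · have := hpp.pos
          positivity
        · exact_mod_cast h3
      have h5 : p ∈ Finset.Icc 1 (Nat.sqrt N) := Finset.mem_Icc.mpr ⟨hpp.one_lt.le, hps⟩
      rw [if_pos h5]
      linarith
    · have h3 : (N.choose H).factorization p ≤ 1 :=
        Nat.factorization_choose_le_one (Nat.sqrt_lt'.mp (not_le.mp hps))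
      by_cases hv : (N.choose H).factorization p = 0
      · rw [hv]
        simp only [Nat.cast_zero, zero_mul]
        linarith
      · have hv1 : (N.choose H).factorization p = 1 := by omega
        have hdvd : p ∣ N.choose H := Nat.dvd_of_factorization_pos hv
        rw [hv1, Nat.cast_one, one_mul]
        by_cases hpH : p ≤ H
        · rw [if_pos (show p.Prime ∧ p ≤ H from ⟨hpp, hpH⟩)]
          linarith
        · have h5 : p ∈ SS N H := by
            unfold SS
            rw [mem_filter, mem_range]
            exact ⟨hp, hpp, by omega, hdvd⟩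
          rw [if_pos h5]
          linarith
  rw [h1]
  refine (Finset.sum_le_sum h2).trans ?_
  rw [Finset.sum_add_distrib, Finset.sum_add_distrib]
  have e1 : ∑ p ∈ range (N + 1), (if p ∈ Finset.Icc 1 (Nat.sqrt N) then Real.log N else 0)
      ≤ (Nat.sqrt N : ℝ) * Real.log N := by
    rw [← Finset.sum_filter, Finset.sum_const, nsmul_eq_mul]
    apply mul_le_mul_of_nonneg_right _ hlogN
    have : ((range (N + 1)).filter (fun p => p ∈ Finset.Icc 1 (Nat.sqrt N))).card ≤
        (Finset.Icc 1 (Nat.sqrt N)).card := by
      apply Finset.card_le_card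
      intro p hp
      exact (mem_filter.mp hp).2
    rw [Nat.card_Icc] at this
    exact_mod_cast this
  have e2 : ∑ p ∈ range (N + 1), (if p.Prime ∧ p ≤ H then Real.log p else 0)
      ≤ H * Real.log 4 := by
    have h3 := primorial_le_four_pow H
    have h4 : Real.log (primorial H : ℕ) ≤ H * Real.log 4 := by
      have h5 : ((primorial H : ℕ) : ℝ) ≤ (4 : ℝ) ^ H := by exact_mod_cast h3
      have h6 := Real.log_le_log (by exact_mod_cast primorial_pos H) h5
      rwa [Real.log_pow] at h6
    refine le_trans ?_ h4
    unfold primorial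
    rw [Nat.cast_prod, Real.log_prod, ← Finset.sum_filter]
    · apply Finset.sum_le_sum_of_subset_of_nonneg
      · intro p hp
        rw [mem_filter] at hp
        rw [mem_filter, mem_range]
        exact ⟨by omega, hp.2.1⟩
      · intro p _ _
        exact hlog0 p
    · intro p hp
      have := (mem_filter.mp hp).2.pos
      positivity
  have e3 : ∑ p ∈ range (N + 1), (if p ∈ SS N H then Real.log p else 0)
      ≤ ∑ p ∈ SS N H, Real.log p := by
    rw [← Finset.sum_filter]
    apply Finset.sum_le_sum_of_subset_of_nonneg
    · intro p hp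
      exact (mem_filter.mp hp).2
    · intro p _ _
      exact hlog0 p
  linarith

/-- a large prime factor of the binomial coefficient divides one of the factors -/
theorem exists_multiple (m H p : ℕ) (hp : p.Prime) (hd : p ∣ (m + H).choose H) :
    ∃ a, m < a ∧ a ≤ m + H ∧ p ∣ a := by
  have h1 : p ∣ (m + H).descFactorial H := by
    rw [Nat.descFactorial_eq_factorial_mul_choose]
    exact hd.mul_left _
  rw [Nat.descFactorial_eq_prod_range, hp.prime.dvd_finset_prod_iff] at h1
  obtain ⟨i, hi, hpi⟩ := h1
  rw [mem_range] at hi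
  exact ⟨m + H - i, by omega, by omega, hpi⟩

end H50LP
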