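import Pool.Agent.H50.LP.Main

/-! From large primes to integers with a large prime factor, and the range `n ≤ 31`. -/

set_option autoImplicit false

namespace H50LP

open Finset

/-- integers strictly between the cubes with a prime factor `> n^(11/5)` -/
def AA (n : ℕ) : Set ℕ :=
  {a : ℕ | n ^ 3 < a ∧ a < (n + 1) ^ 3 ∧ ∃ p, p.Prime ∧ p ∣ a ∧ n ^ 11 < p ^ 5}

theorem finite_AA (n : ℕ) : (AA n).Finite :=
  (Set.finite_Ioo (n ^ 3) ((n + 1) ^ 3)).subset (fun _ ha => ⟨ha.1, ha.2.1⟩)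

theorem inj (n : ℕ) (hn : 1 ≤ n) :
    ((SS (n ^ 3 + (3 * n ^ 2 + 3 * n)) (3 * n ^ 2 + 3 * n)).filter
      (fun p => ¬ p ^ 5 ≤ n ^ 11)).card ≤ (AA n).ncard := by
  set S2 := (SS (n ^ 3 + (3 * n ^ 2 + 3 * n)) (3 * n ^ 2 + 3 * n)).filter
      (fun p => ¬ p ^ 5 ≤ n ^ 11) with hS2
  have hmem : ∀ p ∈ S2, p.Prime ∧ 3 * n ^ 2 + 3 * n < p ∧ n ^ 11 < p ^ 5 ∧
      p ∣ (n ^ 3 + (3 * n ^ 2 + 3 * n)).choose (3 * n ^ 2 + 3 * n) := by
    intro p hp
    rw [hS2, mem_filter] at hp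
    unfold SS at hp
    rw [mem_filter] at hp
    exact ⟨hp.1.2.1, hp.1.2.2.1, not_le.mp hp.2, hp.1.2.2.2⟩
  have hcube : (n + 1) ^ 3 = n ^ 3 + (3 * n ^ 2 + 3 * n) + 1 := by ring
  have hex : ∀ p ∈ S2, ∃ a, n ^ 3 < a ∧ a < (n + 1) ^ 3 ∧ p ∣ a := by
    intro p hp
    obtain ⟨h1, h2, h3, h4⟩ := hmem p hp
    obtain ⟨a, ha1, ha2, ha3⟩ := exists_multiple (n ^ 3) (3 * n ^ 2 + 3 * n) p h1 h4
    exact ⟨a, ha1, by omega, ha3⟩
  choose! f hf using hex
  rw [← Set.ncard_coe_finset]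
  apply Set.ncard_le_ncard_of_injOn f _ _ (finite_AA n)
  · intro p hp
    rw [mem_coe] at hp
    obtain ⟨h1, h2, h3⟩ := hf p hp
    exact ⟨h1, h2, p, (hmem p hp).1, h3, (hmem p hp).2.2.1⟩
  · intro p hp q hq hpq
    rw [mem_coe] at hp hq
    by_contra hne
    obtain ⟨h1, h2, h3⟩ := hf p hp
    obtain ⟨h4, h5, h6⟩ := hf q hq
    rw [← hpq] at h6
    obtain ⟨p1, p2, -, -⟩ := hmem p hp
    obtain ⟨q1, q2, -, -⟩ := hmem q hq
    have h7 : p * q ∣ f p :=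
      Nat.Coprime.mul_dvd_of_dvd_of_dvd ((Nat.coprime_primes p1 q1).mpr hne) h3 h6
    have h8 : p * q ≤ f p := Nat.le_of_dvd (by omega) h7
    have h9 : (3 * n ^ 2 + 3 * n) * (3 * n ^ 2 + 3 * n) ≤ p * q := Nat.mul_le_mul p2.le q2.le
    have h10 : (n + 1) ^ 3 ≤ (3 * n ^ 2 + 3 * n) * (3 * n ^ 2 + 3 * n) := by
      have e : (3 * n ^ 2 + 3 * n) * (3 * n ^ 2 + 3 * n) = (9 * n ^ 2) * (n + 1) ^ 2 := by ring
      rw [e, pow_succ, mul_comm]
      apply Nat.mul_le_mul_right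
      nlinarith
    omega

/-- the primes below `182` -/
def pl : List ℕ := [2, 3, 5, 7, 11, 13, 17, 19, 23, 29, 31, 37, 41, 43, 47, 53, 59, 61, 67, 71, 73, 79, 83, 89, 97, 101, 103, 107, 109, 113, 127, 131, 137, 139, 149, 151, 157, 163, 167, 173, 179, 181]

theorem mem_pl (p : ℕ) (hp : p < 182) (hpp : p.Prime) : p ∈ pl := by
  unfold pl
  interval_cases p <;> first | (simp; done) | (exfalso; revert hpp; norm_num)

/-- a primality test -/
def tst (a : ℕ) : Bool := pl.all (fun d => !(decide (a % d = 0)) || decide (a ≤ d))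

theorem tst_prime (a : ℕ) (h2 : 2 ≤ a) (h : a < 33124) (ht : tst a = true) : a.Prime := by
  by_contra hcon
  have h1 := Nat.minFac_sq_le_self (by omega) hcon
  have h3 : a.minFac < 182 := by nlinarith
  have h4 : 2 ≤ a.minFac := (Nat.minFac_prime (by omega)).two_le
  unfold tst at ht
  rw [List.all_eq_true] at ht
  have h5 := ht a.minFac (mem_pl _ h3 (Nat.minFac_prime (by omega)))
  rw [Bool.or_eq_true, decide_eq_true_eq, Bool.not_eq_true', decide_eq_false_iff_not] at h5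
  rcases h5 with h5 | h5
  · exact h5 (Nat.mod_eq_zero_of_dvd (Nat.minFac_dvd a))
  · nlinarith

/-- the finite check -/
theorem check : ∀ n ∈ List.range' 1 31,
    n ^ 2 ≤ 20 * ((List.range' (n ^ 3 + 1) (3 * n ^ 2 / 4 + 3)).filter tst).length := by
  decide +kernel

theorem small (n : ℕ) (hn : 1 ≤ n) (h31 : n ≤ 31) : n ^ 2 ≤ 20 * (AA n).ncard := by
  have h1 := check n (by rw [List.mem_range'_1]; omega)
  refine h1.trans (Nat.mul_le_mul_left _ ?_)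
  have hnd : ((List.range' (n ^ 3 + 1) (3 * n ^ 2 / 4 + 3)).filter tst).Nodup :=
    List.Nodup.filter _ (List.nodup_range' (step := 1) (by norm_num))
  rw [← List.toFinset_card_of_nodup hnd, ← Set.ncard_coe_finset]
  apply Set.ncard_le_ncard _ (finite_AA n)
  intro a ha
  rw [mem_coe, List.mem_toFinset, List.mem_filter, List.mem_range'_1] at ha
  obtain ⟨⟨ha1, ha2⟩, ha3⟩ := ha
  have hcube : (n + 1) ^ 3 = n ^ 3 + 3 * n ^ 2 + 3 * n + 1 := by ring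
  have h3 : a < (n + 1) ^ 3 := by omega
  have h4 : (n + 1) ^ 3 ≤ 32 ^ 3 := Nat.pow_le_pow_left (by omega) 3
  have hn3 : 1 ≤ n ^ 3 := Nat.one_le_pow _ _ (by omega)
  refine ⟨by omega, h3, a, tst_prime a (by omega) (by norm_num at h4; omega) ha3, dvd_rfl, ?_⟩
  calc n ^ 11 ≤ n ^ 15 := Nat.pow_le_pow_right (by omega) (by norm_num)
    _ = (n ^ 3) ^ 5 := by ring
    _ < a ^ 5 := Nat.pow_lt_pow_left (by omega) (by norm_num)

end H50LP
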