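import Pool.Agent.H50.LP.Ana
import Pool.Agent.H50.LP.Inj

/-! The three ranges. -/

set_option autoImplicit false

namespace H50LP

open Finset

theorem KK_empty (n : ℕ) (hn : 1 ≤ n) (h : n ≤ 232) : KK n = ∅ := by
  unfold KK
  rw [Finset.filter_eq_empty_iff]
  intro k hk
  rw [Finset.mem_Icc] at hk
  rintro ⟨h1, h2⟩
  have hk78 : k ≤ 78 := by omega
  have hk1 := hk.1
  have h3 : 3 * k - 2 ≤ n := by omega
  have h4 : (3 * k - 2) ^ 4 < k ^ 5 := lt_of_le_of_lt (Nat.pow_le_pow_left h3 4) h1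
  have h5 : ∀ j ∈ List.range 79, j ^ 5 ≤ (3 * j - 2) ^ 4 := by decide +kernel
  have h6 := h5 k (by rw [List.mem_range]; omega)
  omega

theorem regA (n : ℕ) (hn : 32 ≤ n) (h : n ≤ 232) :
    n ^ 2 ≤ 20 * ((SS (n ^ 3 + (3 * n ^ 2 + 3 * n)) (3 * n ^ 2 + 3 * n)).filter
      (fun p => ¬ p ^ 5 ≤ n ^ 11)).card := by
  have hn' : (32 : ℝ) ≤ n := by exact_mod_cast hn
  have h2l := Real.log_two_lt_d9
  have h2g := Real.log_two_gt_d9
  have hl3 := log3_le
  have hl4 := log4_eq
  have hE := E_bound n 32 0.6088 (by norm_num) hn (by norm_num) (by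
    have h1 := Real.log_le_sub_one_of_pos (x := (33 : ℝ) / 2 ^ 5) (by positivity)
    rw [Real.log_div (by positivity) (by positivity), Real.log_pow] at h1
    norm_num at h1
    have h2 : (5.7445 : ℝ) ≤ √33 := Real.le_sqrt_of_sq_le (by norm_num)
    norm_num
    linarith)
  apply reduce n (by omega) _ 0 hE
  · have h1 := card_small n 2 (by omega) le_rfl (by omega)
    rw [KK_empty n (by omega) h, Finset.sum_empty] at h1
    have hL0 : 0 ≤ Real.log n := Real.log_nonneg (by linarith)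
    rw [zero_mul]
    exact mul_nonpos_of_nonpos_of_nonneg h1 (by positivity)
  · have hL : Real.log 32 ≤ Real.log n := Real.log_le_log (by norm_num) hn'
    rw [show (32 : ℝ) = 2 ^ 5 by norm_num, Real.log_pow] at hL
    push_cast at hL
    have h3 : 1 / (n : ℝ) ≤ 1 / 32 := one_div_le_one_div_of_le (by norm_num) hn'
    norm_num at h3 ⊢
    linarith

theorem e_facts (n : ℕ) (hn : 233 ≤ n) :
    ((n : ℝ) + 2) / 3 ≤ (((n : ℝ) + 2) / (9 * n * (n + 1))) * (3 * (n : ℝ) ^ 2 + 3 * n) ∧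
    0 ≤ ((n : ℝ) + 2) / (9 * n * (n + 1)) ∧
    (((n : ℝ) + 2) / (9 * n * (n + 1))) * (9 / 100 * n) = 1 / 100 * (1 + 1 / (n + 1)) := by
  have hn' : (233 : ℝ) ≤ n := by exact_mod_cast hn
  have hn0 : (0 : ℝ) < n := by linarith
  refine ⟨le_of_eq ?_, by positivity, ?_⟩
  · field_simp
    ring
  · field_simp
    ring

theorem regB (n : ℕ) (hn : 233 ≤ n) (h : n ≤ 1000) :
    n ^ 2 ≤ 20 * ((SS (n ^ 3 + (3 * n ^ 2 + 3 * n)) (3 * n ^ 2 + 3 * n)).filter
      (fun p => ¬ p ^ 5 ≤ n ^ 11)).card := by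
  have hn' : (233 : ℝ) ≤ n := by exact_mod_cast hn
  have h' : (n : ℝ) ≤ 1000 := by exact_mod_cast h
  have hn0 : (0 : ℝ) < n := by linarith
  have h2l := Real.log_two_lt_d9
  have h2g := Real.log_two_gt_d9
  have hl3 := log3_le
  have hl3g := log3_ge
  have hl4 := log4_eq
  set L := Real.log n with hL
  have hLlow : 5.44 ≤ L := by
    have h1 : Real.log 233 ≤ L := Real.log_le_log (by norm_num) hn'
    have h2 := Real.one_sub_inv_le_log_of_pos (x := (233 : ℝ) / 2 ^ 8) (by positivity)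
    rw [Real.log_div (by positivity) (by positivity), Real.log_pow] at h2
    norm_num at h2
    linarith
  have hLup : L ≤ 6.909 := by
    have h1 : L ≤ Real.log 1000 := Real.log_le_log hn0 h'
    have h2 := Real.log_le_sub_one_of_pos (x := (1000 : ℝ) / 2 ^ 10) (by positivity)
    rw [Real.log_div (by positivity) (by positivity), Real.log_pow] at h2
    norm_num at h2
    linarith
  have hE := E_bound n 233 0.3567 (by norm_num) hn (by norm_num) (by
    have h1 := Real.log_le_sub_one_of_pos (x := (234 : ℝ) / 3 ^ 5) (by positivity)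
    rw [Real.log_div (by positivity) (by positivity), Real.log_pow] at h1
    norm_num at h1
    have h2 : (15.297 : ℝ) ≤ √234 := Real.le_sqrt_of_sq_le (by norm_num)
    norm_num
    linarith)
  obtain ⟨e1, e2, e3⟩ := e_facts n hn
  set e := ((n : ℝ) + 2) / (9 * n * (n + 1)) with he
  have he5 : e ≤ 0.00048 := by
    rw [he, div_le_iff₀ (by positivity)]
    nlinarith
  have hs : ∑ k ∈ KK n, 1 / (k : ℝ) ≤ 1 / 5 * L - 1.077 := by
    rcases KK_facts n hn 78 (by norm_num) (by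
      calc (78 : ℝ) ^ 5 ≤ 233 ^ 4 := by norm_num
        _ ≤ (n : ℝ) ^ 4 := by gcongr) with h1 | h1
    · have h3 : 2 / (n : ℝ) ≤ 2 / 233 := div_le_div_of_nonneg_left (by norm_num) (by norm_num) hn'
      norm_num at h1 h3 ⊢
      linarith
    · rw [h1, Finset.sum_empty]
      linarith
  set D := ⌊0.3 * √(n : ℝ)⌋₊ with hD
  have hsn : (15.26 : ℝ) ≤ √(n : ℝ) := Real.le_sqrt_of_sq_le (by norm_num; linarith)
  have hD4 : 4 ≤ D := by
    apply Nat.le_floor
    push_cast
    linarith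
  have hDle : (D : ℝ) ≤ 0.3 * √(n : ℝ) := Nat.floor_le (by positivity)
  have hDsq : (D : ℝ) ^ 2 ≤ 9 / 100 * n := by
    calc (D : ℝ) ^ 2 ≤ (0.3 * √(n : ℝ)) ^ 2 := by gcongr
      _ = 9 / 100 * (n : ℝ) := by
        rw [mul_pow, Real.sq_sqrt hn0.le]
        norm_num
  have hlogD : 1.38629 ≤ Real.log D := by
    have h1 : Real.log 4 ≤ Real.log D := Real.log_le_log (by norm_num) (by exact_mod_cast hD4)
    linarith
  have hT := T_bound n hn D (by omega) hDsq _ e hs e1 e2
  apply reduce n (by omega) _ _ hE hT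
  rw [← hL, e3]
  have h5 : 1 / ((n : ℝ) + 1) ≤ 1 / 234 := one_div_le_one_div_of_le (by norm_num) (by linarith)
  have h6 : (1 / 5 * L - 1.077 + e) / Real.log D ≤ (1 / 5 * L - 1.0765) / 1.38629 := by
    have : 0 ≤ 1 / 5 * L - 1.0765 := by linarith
    calc (1 / 5 * L - 1.077 + e) / Real.log D ≤ (1 / 5 * L - 1.0765) / Real.log D := by
          gcongr
          linarith
      _ ≤ _ := by gcongr
  have h7 : 1 / 100 * (1 + 1 / ((n : ℝ) + 1)) ≤ 0.01005 := by linarith
  have h8 : 11 / 5 * L * ((1 / 5 * L - 1.077 + e) / Real.log D + 1 / 100 * (1 + 1 / ((n : ℝ) + 1))) ≤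
      11 / 5 * L * ((1 / 5 * L - 1.0765) / 1.38629 + 0.01005) := by
    gcongr
  have h9 : (1 / 5 * L - 1.0765) / 1.38629 ≤ 0.14428 * L - 0.7765 := by
    rw [div_le_iff₀ (by norm_num)]
    linarith
  have h10 : 11 / 5 * L * ((1 / 5 * L - 1.0765) / 1.38629 + 0.01005) ≤
      11 / 5 * L * (0.14428 * L - 0.76645) := by
    gcongr
    linarith
  have h11 : 1 / (n : ℝ) ≤ 1 / 233 := one_div_le_one_div_of_le (by norm_num) hn'
  have h12 : 0 ≤ (L - 5.4) * (6.909 - L) := mul_nonneg (by linarith) (by linarith)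
  push_cast
  norm_num at *
  nlinarith

theorem regC (n : ℕ) (hn : 1000 ≤ n) :
    n ^ 2 ≤ 20 * ((SS (n ^ 3 + (3 * n ^ 2 + 3 * n)) (3 * n ^ 2 + 3 * n)).filter
      (fun p => ¬ p ^ 5 ≤ n ^ 11)).card := by
  have hn' : (1000 : ℝ) ≤ n := by exact_mod_cast hn
  have hn0 : (0 : ℝ) < n := by linarith
  have h2l := Real.log_two_lt_d9
  have h2g := Real.log_two_gt_d9
  have hl3 := log3_le
  have hl3g := log3_ge
  have hl4 := log4_eq
  set L := Real.log n with hL
  have hLlow : 6.907 ≤ L := by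
    have h1 : Real.log 1000 ≤ L := Real.log_le_log (by norm_num) hn'
    have h2 := Real.one_sub_inv_le_log_of_pos (x := (1000 : ℝ) / 2 ^ 10) (by positivity)
    rw [Real.log_div (by positivity) (by positivity), Real.log_pow] at h2
    norm_num at h2
    linarith
  have hE := E_bound n 1000 0.2184 (by norm_num) hn (by norm_num) (by
    have h1 := Real.log_le_sub_one_of_pos (x := (1001 : ℝ) / 2 ^ 10) (by positivity)
    rw [Real.log_div (by positivity) (by positivity), Real.log_pow] at h1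
    norm_num at h1
    have h2 : (31.638 : ℝ) ≤ √1001 := Real.le_sqrt_of_sq_le (by norm_num)
    norm_num
    linarith)
  obtain ⟨e1, e2, e3⟩ := e_facts n (by omega)
  set e := ((n : ℝ) + 2) / (9 * n * (n + 1)) with he
  have he5 : e ≤ 0.00012 := by
    rw [he, div_le_iff₀ (by positivity)]
    nlinarith
  have hs : ∑ k ∈ KK n, 1 / (k : ℝ) ≤ 1 / 5 * L - 1.0926 := by
    rcases KK_facts n (by omega) 251 (by norm_num) (by
      calc (251 : ℝ) ^ 5 ≤ 1000 ^ 4 := by norm_num
        _ ≤ (n : ℝ) ^ 4 := by gcongr) with h1 | h1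
    · have h3 : 2 / (n : ℝ) ≤ 2 / 1000 := div_le_div_of_nonneg_left (by norm_num) (by norm_num) hn'
      norm_num at h1 h3 ⊢
      linarith
    · rw [h1, Finset.sum_empty]
      linarith
  set D := ⌊0.3 * √(n : ℝ)⌋₊ with hD
  have hsn : (31.6 : ℝ) ≤ √(n : ℝ) := Real.le_sqrt_of_sq_le (by norm_num; linarith)
  have hD4 : 4 ≤ D := by
    apply Nat.le_floor
    push_cast
    linarith
  have hDle : (D : ℝ) ≤ 0.3 * √(n : ℝ) := Nat.floor_le (by positivity)
  have hDsq : (D : ℝ) ^ 2 ≤ 9 / 100 * n := by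
    calc (D : ℝ) ^ 2 ≤ (0.3 * √(n : ℝ)) ^ 2 := by gcongr
      _ = 9 / 100 * (n : ℝ) := by
        rw [mul_pow, Real.sq_sqrt hn0.le]
        norm_num
  have hlogD : 1 / 2 * L - 1.32 ≤ Real.log D := by
    have h1 : 0.268 * √(n : ℝ) ≤ D := by
      have := Nat.lt_floor_add_one (0.3 * √(n : ℝ))
      rw [← hD] at this
      linarith
    have h2 : Real.log (0.268 * √(n : ℝ)) ≤ Real.log D := Real.log_le_log (by positivity) h1
    rw [Real.log_mul (by norm_num) (by positivity), Real.log_sqrt hn0.le] at h2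
    have h3 := Real.one_sub_inv_le_log_of_pos (x := (0.268 : ℝ) * 2 ^ 2) (by positivity)
    rw [Real.log_mul (by norm_num) (by norm_num), Real.log_pow] at h3
    norm_num at h2 h3 ⊢
    linarith
  have hT := T_bound n (by omega) D (by omega) hDsq _ e hs e1 e2
  apply reduce n (by omega) _ _ hE hT
  rw [← hL, e3]
  have hpos : 0 < 1 / 2 * L - 1.32 := by linarith
  have h5 : 1 / ((n : ℝ) + 1) ≤ 1 / 1001 := one_div_le_one_div_of_le (by norm_num) (by linarith)
  have h6 : (1 / 5 * L - 1.0926 + e) / Real.log D ≤ (1 / 5 * L - 1.09248) / (1 / 2 * L - 1.32) := by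
    have : 0 ≤ 1 / 5 * L - 1.09248 := by linarith
    calc (1 / 5 * L - 1.0926 + e) / Real.log D ≤ (1 / 5 * L - 1.09248) / Real.log D := by
          gcongr
          linarith
      _ ≤ _ := by gcongr
  have h7 : 1 / 100 * (1 + 1 / ((n : ℝ) + 1)) ≤ 0.01001 := by
    norm_num at h5 ⊢
    linarith
  have h8 : 11 / 5 * L * ((1 / 5 * L - 1.0926 + e) / Real.log D + 1 / 100 * (1 + 1 / ((n : ℝ) + 1))) ≤
      11 / 5 * L * ((1 / 5 * L - 1.09248) / (1 / 2 * L - 1.32) + 0.01001) := by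
    gcongr
  have h9 : L * ((1 / 5 * L - 1.09248) / (1 / 2 * L - 1.32)) ≤ 0.4 * L - 1.12896 := by
    rw [← mul_div_assoc, div_le_iff₀ hpos]
    nlinarith
  have h10 : 11 / 5 * L * ((1 / 5 * L - 1.09248) / (1 / 2 * L - 1.32) + 0.01001) ≤
      11 / 5 * (0.4 * L - 1.12896) + 11 / 5 * L * 0.01001 := by linarith
  have h11 : 1 / (n : ℝ) ≤ 1 / 1000 := one_div_le_one_div_of_le (by norm_num) hn'
  have h13 := h8.trans h10
  generalize 11 / 5 * L * ((1 / 5 * L - 1.0926 + e) / Real.log D + 1 / 100 * (1 + 1 / ((n : ℝ) + 1))) = T at h13 ⊢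
  push_cast
  norm_num at h13 h11 ⊢
  linarith

/-- the main theorem -/
theorem main (n : ℕ) (hn : 1 ≤ n) : n ^ 2 ≤ 20 * (AA n).ncard := by
  rcases Nat.lt_or_ge n 32 with h | h
  · exact small n hn (by omega)
  refine le_trans ?_ (Nat.mul_le_mul_left 20 (inj n hn))
  rcases Nat.lt_or_ge n 233 with h2 | h2
  · exact regA n h (by omega)
  rcases Nat.lt_or_ge n 1000 with h3 | h3
  · exact regB n h2 (by omega)
  · exact regC n h3

end H50LP
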