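import Pool.Agent.H50.LP.Core

/-! Counting the large primes. -/

set_option autoImplicit false

namespace H50LP

open Finset

/-- possible cofactors of the primes `≤ n^(11/5)` -/
def KK (n : ℕ) : Finset ℕ := (Finset.Icc 1 n).filter (fun k => n ^ 4 < k ^ 5 ∧ 3 * k ≤ n + 2)

theorem cover (n p a : ℕ) (hn : 1 ≤ n) (hpH : 3 * n ^ 2 + 3 * n < p)
    (hy : p ^ 5 ≤ n ^ 11) (ha : n ^ 3 < a) (ha2 : a ≤ n ^ 3 + (3 * n ^ 2 + 3 * n)) (hd : p ∣ a) :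
    ∃ k ∈ KK n, p ∈ Finset.Ioc (n ^ 3 / k) ((n ^ 3 + (3 * n ^ 2 + 3 * n)) / k) := by
  obtain ⟨k, rfl⟩ := hd
  have hk : 0 < k := by
    rcases Nat.eq_zero_or_pos k with h | h
    · subst h
      simp at ha
    · exact h
  have h3k : 3 * k ≤ n + 2 := by
    by_contra hcon
    have h1 : n + 3 ≤ 3 * k := by omega
    have h2 : (n + 3) * (3 * n ^ 2 + 3 * n + 1) ≤ 3 * k * p := Nat.mul_le_mul h1 (by omega)
    have h3 : (n + 3) * (3 * n ^ 2 + 3 * n + 1) = 3 * n ^ 3 + 12 * n ^ 2 + 10 * n + 3 := by ring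
    have h4 : 3 * k * p = 3 * (p * k) := by ring
    rw [h3, h4] at h2
    have h5 : 3 * (p * k) ≤ 3 * (n ^ 3 + (3 * n ^ 2 + 3 * n)) := Nat.mul_le_mul_left _ ha2
    nlinarith [sq_nonneg n]
  have hk20 : n ^ 4 < k ^ 5 := by
    by_contra hcon
    have h1 : (p * k) ^ 5 ≤ n ^ 11 * n ^ 4 := by
      rw [mul_pow]
      exact Nat.mul_le_mul hy (not_lt.mp hcon)
    have h2 : (n ^ 3) ^ 5 < (p * k) ^ 5 := Nat.pow_lt_pow_left ha (by norm_num)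
    have h3 : (n ^ 3) ^ 5 = n ^ 11 * n ^ 4 := by ring
    omega
  refine ⟨k, ?_, ?_⟩
  · unfold KK
    rw [mem_filter, Finset.mem_Icc]
    exact ⟨⟨hk, by omega⟩, hk20, h3k⟩
  · rw [Finset.mem_Ioc, Nat.div_lt_iff_lt_mul hk, Nat.le_div_iff_mul_le hk]
    exact ⟨ha, ha2⟩

theorem card_small (n D : ℕ) (hn : 1 ≤ n) (hD : 2 ≤ D) (hDn : D ≤ n) :
    ((((SS (n ^ 3 + (3 * n ^ 2 + 3 * n)) (3 * n ^ 2 + 3 * n)).filter (fun p => p ^ 5 ≤ n ^ 11)).card : ℕ) : ℝ)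
      ≤ ∑ k ∈ KK n, ((((3 * n ^ 2 + 3 * n : ℕ) : ℝ) * (1 / (k : ℝ)) + 1) / Real.log D + (D : ℝ) ^ 2) := by
  set H := 3 * n ^ 2 + 3 * n with hH
  set N := n ^ 3 + H with hN
  have hlogD : 0 < Real.log D := Real.log_pos (by exact_mod_cast (by omega : 1 < D))
  have h1 : (SS N H).filter (fun p => p ^ 5 ≤ n ^ 11) ⊆ (KK n).biUnion
      (fun k => (Finset.Ioc (n ^ 3 / k) (N / k)).filter (fun p => p.Prime ∧ D < p)) := by
    intro p hp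
    unfold SS at hp
    rw [mem_filter, mem_filter, mem_range] at hp
    obtain ⟨⟨_, hpp, hHp, hd⟩, hy⟩ := hp
    obtain ⟨a, ha1, ha2, ha3⟩ := exists_multiple (n ^ 3) H p hpp hd
    obtain ⟨k, hk, hpk⟩ := cover n p a hn hHp hy ha1 ha2 ha3
    rw [mem_biUnion]
    refine ⟨k, hk, mem_filter.mpr ⟨hpk, hpp, ?_⟩⟩
    have : n ≤ H := by rw [hH]; omega
    omega
  have h2 := (Finset.card_le_card h1).trans Finset.card_biUnion_le
  have h3 : ((((SS N H).filter (fun p => p ^ 5 ≤ n ^ 11)).card : ℕ) : ℝ) ≤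
      ∑ k ∈ KK n, ((((Finset.Ioc (n ^ 3 / k) (N / k)).filter (fun p => p.Prime ∧ D < p)).card : ℕ) : ℝ) := by
    exact_mod_cast h2
  refine h3.trans (Finset.sum_le_sum ?_)
  intro k hk
  unfold KK at hk
  rw [mem_filter, Finset.mem_Icc] at hk
  have hk0 : (0 : ℝ) < k := by exact_mod_cast hk.1.1
  obtain ⟨z, hz⟩ : ∃ z, N / k = n ^ 3 / k + z :=
    ⟨N / k - n ^ 3 / k, by
      have : n ^ 3 / k ≤ N / k := Nat.div_le_div_right (by omega)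
      omega⟩
  have h4 := bt (n ^ 3 / k) z D hD
  rw [← hz] at h4
  refine h4.trans ?_
  have hz1 : (z : ℝ) ≤ (H : ℝ) * (1 / (k : ℝ)) + 1 := by
    have a1 : (((N / k : ℕ)) : ℝ) ≤ (N : ℝ) / k := Nat.cast_div_le
    have a2 : (((n ^ 3 : ℕ)) : ℝ) / k < ((n ^ 3 / k : ℕ) : ℝ) + 1 := by
      rw [← Nat.floor_div_eq_div (K := ℝ)]
      exact Nat.lt_floor_add_one _
    have a3 : ((N / k : ℕ) : ℝ) = ((n ^ 3 / k : ℕ) : ℝ) + z := by exact_mod_cast hz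
    have a4 : (N : ℝ) / k = ((n ^ 3 : ℕ) : ℝ) / k + (H : ℝ) * (1 / (k : ℝ)) := by
      rw [hN]
      push_cast
      ring
    linarith
  gcongr

end H50LP
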